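import Pool.Agent.Results.MP_cd906c_nt.AllLayersExactProportion
import Pool.Agent.Results.MP_6dc9d1_nt.FixedNumberAllLayers

/-!
# The 2-part of the Birch and Swinnerton-Dyer conjecture at all the layers of the cyclotomic
# `ℤ₃`-extension for the twists of `X_0(14)` by products of a fixed number of primes from an arbitrary set
# of primes of positive density

`E_D` is the twist by `D` of the modular curve `X_0(14)` (no complex multiplication).  The class `Adm`
consists of the squarefree integers `D`, positive or negative, `1` modulo `4`, squares modulo `7`, whose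
prime divisors split completely in `ℚ(i, √2, √-7)` or are inert in `ℚ(√2)` and in `ℚ(√-7)`, and are inert
in the cyclotomic `ℤ₃`-extension of `ℚ`.

`Good K D` : the 2-part of the conjecture of Birch and Swinnerton-Dyer holds for `E_D` over `K`, the rank
of `E_D(K)` is zero and `Ш(E_D/K)[2^∞] = 0`; `AllLayers D` : `Good K D` for all the layers `K` of the
cyclotomic `ℤ₃`-extension of `ℚ`.

We fix the number `k` of the split prime divisors of `D` and the numbers `a`, `b` of the inert prime
divisors which are `3` and `5` modulo `8`, and an arbitrary set `S` of primes which contains a positive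
lower proportion of the primes of each of the kinds that occur (no other condition).

Theorem.  Let `b` be even and `a + b ≥ 1`.  The number of the `D` of the class, `|D| ≤ X`, with exactly
`k`, `a`, `b` prime divisors of the three kinds, all of them in `S`, has the order of magnitude
`X (log log X)^(k + a + b - 1) / log X`, and the proportion of the `D` with the property `AllLayers` among
them tends to the rational number `∏_{i < (k + 1) / 2} (1 - 2^{-(2 i + 1)})`, which is `1`, `1/2`, `1/2`,
`7/16`, `7/16`, … for `k = 0, 1, 2, 3, 4, …`.  For all the other `D` of the family and all the layers `K`,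
the rank of `E_D(K)` is positive or `Ш(E_D/K)[2] ≠ 0`.

The criterion for a single `D` is in the file `AllLayersExactProportion` of problem `MP_cd906c_nt`; the
equidistribution for a fixed number of primes from an arbitrary dense set is the one of
`FixedNumberOfPrimes` of problem `MP_8b7eba_nt`.
-/

set_option autoImplicit false

open Finset NumberField IsDedekindDomain Filter Topology

namespace Pool.Agent.Results.MP_e996df_nt.FixedNumberTwoPartLayers

open scoped Classical

open Pool.Agent.Results.MP_cd906c_nt.AllLayersExactProportion (Adm R AllLayers Small)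

open Pool.Agent.Results.MP_6dc9d1_nt.FixedNumberAllLayers (Family Rich count proportion)

/-- For each layer `K` of the cyclotomic `ℤ₃`-extension of `ℚ` the rank of `E_D(K)` is positive or
`Ш(E_D/K)[2] ≠ 0`. -/
def NoLayer (D : ℤ) : Prop := ∀ (n : ℕ) (M : Type) [Field M] [NumberField M]
  [IsCyclotomicExtension {3 ^ (n + 1)} ℚ M] (K : IntermediateField ℚ M),
  Odd (Module.finrank ℚ K) → ¬ Small K D

/-- The law for the family: the order of magnitude of the number of its elements up to `X`, and the
proportion of those with the property `AllLayers`. -/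
def Law (S : Set ℕ) (k a b : ℕ) : Prop :=
  (∃ (c C : ℝ) (X₀ : ℕ), 0 < c ∧ 0 < C ∧ ∀ X : ℕ, X₀ ≤ X →
    c * (X * Real.log (Real.log X) ^ (k + a + b - 1) / Real.log X) ≤ (count (Family S k a b) X : ℝ) ∧
    (count (Family S k a b) X : ℝ) ≤
      C * (X * Real.log (Real.log X) ^ (k + a + b - 1) / Real.log X)) ∧
  Tendsto (fun X : ℕ => (count (fun D => Family S k a b D ∧ AllLayers D) X : ℝ) /
    (count (Family S k a b) X : ℝ)) atTop (𝓝 (proportion k))

lemma mat_eq (D : ℤ) (hD : Adm D) :
    R D = Pool.Agent.Results.MP_6dc9d1_nt.FixedNumberAllLayers.R D := by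
  unfold R Pool.Agent.Results.MP_6dc9d1_nt.FixedNumberAllLayers.R
  rfl

lemma key (D : ℤ) (hD : Adm D) :
    AllLayers D ↔ Pool.Agent.Results.MP_6dc9d1_nt.FixedNumberAllLayers.AllLayers D := by
  rw [Pool.Agent.Results.MP_cd906c_nt.AllLayersExactProportion.result.2.1 D hD, mat_eq D hD]
  exact (Pool.Agent.Results.MP_6dc9d1_nt.FixedNumberAllLayers.all_iff D hD).symm

/-- **Main theorem.**
(1) For each `D` of the class, the property `AllLayers` holds if and only if the matrix `R D` is
nonsingular; if it does not hold then `NoLayer D`.
(2) Let `b` be even, `a + b ≥ 1`, and let `S` be a set of primes which contains a positive lower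
proportion of the primes of each of the kinds that occur.  Then the number of the `D` of the class with
exactly `k`, `a`, `b` prime factors of the three kinds, all in `S`, and `|D| ≤ X` is between two positive
constants times `X (log log X)^(k + a + b - 1) / log X`, and the proportion of the `D` with the property
`AllLayers` among them tends to `∏_{i < (k + 1) / 2} (1 - 2^{-(2 i + 1)})`.
(3) The `D` of these families are positive if and only if `a` is even.
(4) The condition on `S` holds if `S` is the set of the numbers in a residue class `c` modulo `q`, with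
`q` prime to `42` and `c` prime to `q`. -/
theorem result :
    (∀ D : ℤ, Adm D → (AllLayers D ↔ (R D).det ≠ 0) ∧ (¬ AllLayers D → NoLayer D)) ∧
    (∀ (S : Set ℕ) (k a b : ℕ), Even b → 1 ≤ a + b → Rich S k a b → Law S k a b) ∧
    (∀ (S : Set ℕ) (k a b : ℕ) (D : ℤ), Family S k a b D → (0 < D ↔ Even a)) ∧
    ∀ q c : ℕ, Nat.Coprime q 42 → Nat.Coprime c q → ∀ k a b : ℕ, Rich {p | p % q = c % q} k a b := by
  obtain ⟨a1, a2, a3⟩ := Pool.Agent.Results.MP_6dc9d1_nt.FixedNumberAllLayers.result
  have hc := Pool.Agent.Results.MP_cd906c_nt.AllLayersExactProportion.result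
  refine ⟨fun D hD => ⟨hc.2.1 D hD, fun h n M _ _ _ K hodd hs => ?_⟩,
    fun S k a b hb hab hS => ?_, fun S k a b D hD => ?_, a3⟩
  · exact h ((hc.2.1 D hD).2 ((hc.1 D hD n M K hodd).2.1.1 hs))
  · obtain ⟨b1, b2⟩ := a2 S k a b hb hab hS
    refine ⟨b1, b2.congr fun X => ?_⟩
    have e : (fun D => Family S k a b D ∧ AllLayers D) = fun D => Family S k a b D ∧
        Pool.Agent.Results.MP_6dc9d1_nt.FixedNumberAllLayers.AllLayers D := by
      funext D
      apply propext
      refine and_congr_right fun h => key D h.1
    rw [e]
  · obtain ⟨h1, -, -, h3, -⟩ := hD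
    have hA := (Pool.Agent.Results.MP_f50388_nt.LayersMultiquadraticLaw.adm_iff D).1 h1
    have h6 := Pool.Agent.Y703.CQ.sign_iff hA.1
    rw [h6, ← h3, Nat.even_iff]
    exact Iff.rfl

end Pool.Agent.Results.MP_e996df_nt.FixedNumberTwoPartLayers
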