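import Pool.Agent.Results.MP_e996df_nt.TwoPartIndependence
import Pool.Agent.V1110.SpB

/-!
# The 2-part of the conjecture of Birch and Swinnerton-Dyer at all the layers of the cyclotomic
# `ℤ₃`-extension along sparse sequences of discriminants

`E_D` is the quadratic twist by `D` of the modular curve `X_0(14)`, the class `Adm` of the `D` is that
of the hand-in `TwoPartIndependence`: squarefree, `1` modulo `4`, squares modulo `7`, all prime factors
split in `ℚ(i, √2, √-7)` or inert in `ℚ(√2)` and in `ℚ(√-7)`, and inert in the cyclotomic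
`ℤ₃`-extension.

That hand-in gives the exact joint law of the 2-parts of the twists by `b_1 D, …, b_M D` if `D` runs
through ALL the elements of the class. Here `D` runs through the elements of the class in the sequence
`s ⌊α n ^ p⌋` (`s = ± 1`), where `p > 1` is any real number, so through a very sparse set (about
`X^{1/p}` integers up to `X`). The theorem: there is one set `A₀` of real numbers of Hausdorff
dimension smaller than one such that for all real `α > 0` outside `A₀` the law is the same, for both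
signs, for all `M`, all `b_1, …, b_M` and all sets of indices.

The proof: the law for all `D` and the metric mean value theorem for the sequences `⌊α n ^ p⌋`
(`Pool.Agent.Y854.GM.mean2`), with a power saving in the error; `V1110/SpA`.
-/

set_option autoImplicit false

open Filter Topology

namespace Pool.Agent.Results.MP_e996df_nt.SparseSequences

open Pool.Agent.Results.MP_e996df_nt.TwoPartIndependence

/-- the number of the `1 ≤ n ≤ N` such that `D = s ⌊α n ^ p⌋` has the property `Q` -/
noncomputable def along (α p : ℝ) (s : ℤ) (Q : ℤ → Prop) (N : ℕ) : ℕ :=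
  Nat.card {n : ℕ // (1 ≤ n ∧ n ≤ N) ∧ Q (s * (⌊α * (n : ℝ) ^ p⌋₊ : ℤ))}

/-- `D` is in the class and `AllLayers` holds for the twist by `b_i D` exactly if `i ∈ T` -/
def Event {M : ℕ} (b : Fin M → ℤ) (T : Finset (Fin M)) (D : ℤ) : Prop :=
  Adm D ∧ ∀ (i : Fin M) (D' : ℤ), IsProd D (b i) D' → (AllLayers D' ↔ i ∈ T)

/-- `D` is in the class and for the twists by `b_i D` with `i ∈ T` the 2-part of the conjecture holds
over all layers, with rank `0` and trivial `Ш[2^∞]`, while for the `i` not in `T` over every layer the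
rank is positive or `Ш[2] ≠ 0` -/
def Event' {M : ℕ} (b : Fin M → ℤ) (T : Finset (Fin M)) (D : ℤ) : Prop :=
  Adm D ∧ ∀ (i : Fin M) (D' : ℤ), IsProd D (b i) D' →
    (i ∈ T → AllLayers D') ∧ (i ∉ T → NoLayer D')

lemma event_iff {M : ℕ} (b : Fin M → ℤ) (T : Finset (Fin M)) (D : ℤ) :
    Event b T D ↔ Event' b T D := by
  unfold Event Event'
  refine and_congr_right fun _ => ?_
  refine forall_congr' fun i => forall_congr' fun D' => ?_
  refine imp_congr_right fun h => ?_
  obtain ⟨h1, h2⟩ := TwoPartIndependence.result.2.1 D' h.1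
  by_cases hi : i ∈ T <;> by_cases ha : AllLayers D' <;> by_cases hn : NoLayer D' <;>
    simp_all

/-- **Main theorem.** Let `p > 1` be a real number. There is a set `A₀` of real numbers of Hausdorff
dimension smaller than one such that for all real `α > 0` not in `A₀` and for `s = 1` and `s = -1`:
(1) at least `b N (log N)^(-3/4)` of the `n ≤ N` are such that `D = s ⌊α n ^ p⌋` is in the class;
(2) for all different elements `b_1, …, b_M` of the class and all sets `T` of indices the proportion of
the `n` with `Event'` among these `n` tends to `c^#T (1 - c)^(M - #T)`, where `c = 0.419...`.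
In particular (`M = 1`, `b_1 = 1`, `T = {1}`) for the proportion `c` of them the 2-part of the
conjecture holds for `E_D` over all layers, with rank zero and trivial `Ш[2^∞]`. -/
theorem result (p : ℝ) (hp : 1 < p) :
    ∃ A₀ : Set ℝ, dimH A₀ < 1 ∧ ∀ α : ℝ, 0 < α → α ∉ A₀ → ∀ s : ℤ, (s = 1 ∨ s = -1) →
      (∃ b : ℝ, 0 < b ∧ ∃ N₀ : ℕ, ∀ N : ℕ, N₀ ≤ N →
        b * N * (Real.log N) ^ (-(3 / 4) : ℝ) ≤ (along α p s Adm N : ℝ)) ∧
      ∀ (M : ℕ) (b : Fin M → ℤ), (∀ i, Adm (b i)) → Function.Injective b → ∀ T : Finset (Fin M),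
        Tendsto (fun N : ℕ => (along α p s (Event' b T) N : ℝ) / along α p s Adm N) atTop
          (𝓝 (cc ^ T.card * (1 - cc) ^ (M - T.card))) := by
  obtain ⟨A₀, hA₀, h⟩ := Pool.Agent.V1110.SpA.ratio_int p hp
    (ι := Σ M : ℕ, (Fin M → ℤ) × Finset (Fin M)) (fun v => Event v.2.1 v.2.2) (fun _ => Adm)
  refine ⟨A₀, hA₀, fun α hα hαA s hs => ?_⟩
  obtain ⟨hmany, hprop⟩ := TwoPartIndependence.result.2.2.2 s hs
  obtain ⟨a, X₀, ha, hX₀⟩ := hmany
  have hcount : ∀ X : ℕ, count (fun D => Adm D ∧ 0 < s * D) X =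
      Nat.card {D : ℤ // |D| ≤ X ∧ 0 < s * D ∧ Adm D} := by
    intro X
    unfold count
    refine Nat.card_congr (Equiv.subtypeEquivRight fun D => ?_)
    tauto
  have hQ : ∃ X0 : ℕ, ∀ X : ℕ, X0 ≤ X → a * X * (Real.log X) ^ (-(3 / 4) : ℝ) ≤
      (Nat.card {D : ℤ // |D| ≤ X ∧ 0 < s * D ∧ Adm D} : ℝ) :=
    ⟨X₀, fun X hX => by
      rw [← hcount]
      exact hX₀ X hX⟩
  have key : ∀ (M : ℕ) (b : Fin M → ℤ), (∀ i, Adm (b i)) → Function.Injective b →
      ∀ T : Finset (Fin M),
      Tendsto (fun N : ℕ => (along α p s (Event b T) N : ℝ) / along α p s Adm N) atTop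
          (𝓝 (cc ^ T.card * (1 - cc) ^ (M - T.card))) ∧
        ∃ b : ℝ, 0 < b ∧ ∃ N0 : ℕ, ∀ N : ℕ, N0 ≤ N →
          b * N * (Real.log N) ^ (-(3 / 4) : ℝ) ≤ (along α p s Adm N : ℝ) := by
    intro M b hb hinj T
    refine h α hα hαA ⟨M, b, T⟩ s hs _ a (3 / 4) ha (by norm_num) hQ ?_
    have h1 := hprop M b hb hinj T
    unfold Proportion at h1
    refine h1.congr fun X => ?_
    rw [hcount]
    have e : count (fun D => Adm D ∧ 0 < s * D ∧ ∀ (i : Fin M) (D' : ℤ), IsProd D (b i) D' →
        (AllLayers D' ↔ i ∈ T)) X = Nat.card {D : ℤ // |D| ≤ X ∧ 0 < s * D ∧ Event b T D} := by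
      unfold count
      refine Nat.card_congr (Equiv.subtypeEquivRight fun D => ?_)
      unfold Event
      tauto
    rw [e]
  refine ⟨(key 0 (fun i => i.elim0) (fun i => i.elim0) (fun i => i.elim0) ∅).2,
    fun M b hb hinj T => ?_⟩
  refine (key M b hb hinj T).1.congr fun N => ?_
  have e : along α p s (Event b T) N = along α p s (Event' b T) N := by
    unfold along
    refine Nat.card_congr (Equiv.subtypeEquivRight fun n => ?_)
    rw [event_iff]
  rw [e]

end Pool.Agent.Results.MP_e996df_nt.SparseSequences
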