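import Pool.Agent.Y682.YQ.Lay
import Pool.Agent.V11291.JH.Ind

/-!
# The 2-part of the Birch and Swinnerton-Dyer conjecture at all the layers of the cyclotomic
# `ℤ₃`-extension, for several twists of `X_0(14)` simultaneously: independence

`E_D` is the quadratic twist by `D` of the modular curve `X_0(14)`.  We consider the squarefree `D`,
positive and negative, `D = 1` modulo `4`, `D` a square modulo `7`, whose prime divisors split
completely in `ℚ(i, √2, √-7)` or are inert in `ℚ(√2)` and in `ℚ(√-7)`, and are inert in the cyclotomic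
`ℤ₃`-extension of `ℚ`.  This class is a group under multiplication up to squares.

For each `D` of the class there are two possibilities: either at EVERY layer `K` of the cyclotomic
`ℤ₃`-extension of `ℚ` the 2-part of the conjecture of Birch and Swinnerton-Dyer holds for `E_D` over
`K`, with rank `0` and `Ш(E_D/K)[2^∞] = 0`; or at EVERY layer `K` the rank of `E_D(K)` is positive or
`Ш(E_D/K)[2] ≠ 0`.

Let `b_1, …, b_M` be different elements of the class (`1` is allowed).  The theorem says that the `M`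
events that the first case holds for the twist by `b_i D`, where `D` runs through the class, are
asymptotically independent, each of the probability `c = ∏_{i ≥ 0} (1 - 2^{-(2 i + 1)}) = 0.419...`:
for each set `T` of indices the `D` for which the first case holds for the twist by `b_i D` exactly if
`i` is in `T` have the proportion `c^#T (1 - c)^(M - #T)`, among the positive `D` and also among the
negative `D`.  So the proportion of the `D` such that the 2-part of the conjecture holds for all the `M`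
twists `E_{b_i D}` at all the layers, in this way, is exactly `c^M`.

The proof.  (1) The criterion for one twist at all the layers (see the file
`AllLayersExactProportion` of problem `MP_cd906c_nt`): a matrix of quadratic symbols over `𝔽₂` is
nonsingular.  (2) The joint distribution of the coranks of the matrices of the `M` twists: the matrices
differ by the rows, columns and diagonal entries given by the prime divisors of the `b_i`; the primes
of the class on which `b_i b_j` is not a square make the diagonals independent, and the joint law is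
that of independent random symmetric matrices; large sieve for the quadratic symbols, an estimate for
the `D` for which the symbols are degenerate, for the primes which are inert in the
`ℤ₃`-extension.  (3) Inclusion and exclusion.
-/

set_option autoImplicit false

open NumberField NumberField.InfinitePlace IsDedekindDomain WeierstrassCurve MeasureTheory Filter
  Topology

namespace Pool.Agent.Results.MP_e996df_nt.TwoPartIndependence

open scoped Classical

open Pool.Agent.TH841.NF.D (Sha)

/-- The quadratic twist `E_D` of `X_0(14)` (`D = 1` modulo `4`), with its global minimal equation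
`y² + x y + y = x³ + ((D - 1)/4) x² + ((9 D² - 1)/2) x - (23 D³ + 1)/4`.  It is isomorphic to
`Y² = X (X² + 13 D X + 128 D²)` by `X = 4 (x - D)`, `Y = 4 (2 y + x + 1)`. -/
def twist (D : ℤ) : WeierstrassCurve ℤ :=
  ⟨1, (D - 1) / 4, 1, (9 * D ^ 2 - 1) / 2, -((23 * D ^ 3 + 1) / 4)⟩

/-- The curve given by the equation of `W` over the ring `R`. -/
abbrev base (W : WeierstrassCurve ℤ) (R : Type) [CommRing R] : WeierstrassCurve R :=
  W.map (Int.castRingHom R)

/-- The number of the affine points `(x, y)` over the ring `R`. -/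
noncomputable def pts (W : WeierstrassCurve ℤ) (R : Type) [CommRing R] : ℕ :=
  Nat.card {P : R × R // (base W R).toAffine.Equation P.1 P.2}

section

variable {K : Type} [Field K] [NumberField K]

/-- `a_v = N v + 1 - #W(k_v)`, the points over the residue field `k_v` counted with the point at
infinity. -/
noncomputable def a (W : WeierstrassCurve ℤ) (v : HeightOneSpectrum (𝓞 K)) : ℤ :=
  (Ideal.absNorm v.asIdeal : ℤ) - pts W (𝓞 K ⧸ v.asIdeal)

/-- The Euler factor of `L(W/K, s)` at `v` : `(1 - a_v N v^(-s) + N v^(1 - 2 s))⁻¹` if the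
discriminant is a unit at `v`, and `(1 - a_v N v^(-s))⁻¹` otherwise. -/
noncomputable def factor (W : WeierstrassCurve ℤ) (s : ℂ) (v : HeightOneSpectrum (𝓞 K)) : ℂ :=
  (1 - (a W v : ℂ) * (Ideal.absNorm v.asIdeal : ℂ) ^ (-s) +
    if ((W.Δ : ℤ) : 𝓞 K) ∈ v.asIdeal then 0 else (Ideal.absNorm v.asIdeal : ℂ) ^ (1 - 2 * s))⁻¹

/-- The equation is minimal at the finite place `v` of `K`: no change of variables over `K` that
keeps the coefficients integral at `v` decreases the valuation of the discriminant. -/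
def MinimalAt (W : WeierstrassCurve ℤ) (v : HeightOneSpectrum (𝓞 K)) : Prop :=
  ∀ C : VariableChange K, v.valuation K (C • base W K).a₁ ≤ 1 →
    v.valuation K (C • base W K).a₂ ≤ 1 → v.valuation K (C • base W K).a₃ ≤ 1 →
    v.valuation K (C • base W K).a₄ ≤ 1 → v.valuation K (C • base W K).a₆ ≤ 1 →
    v.valuation K (C • base W K).Δ ≤ v.valuation K (base W K).Δ

/-- `E⁰(K_v)`, the group of the points of `W` over the completion `K_v` with nonsingular reduction:
the points `(x, y)` where `x` is not integral, or one of the partial derivatives of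
`y² + a₁ x y + a₃ y - x³ - a₂ x² - a₄ x - a₆` is a unit at `(x, y)`, and the point at infinity. -/
noncomputable def nonsing (W : WeierstrassCurve ℤ) (v : HeightOneSpectrum (𝓞 K)) :
    AddSubgroup (base W (v.adicCompletion K)).toAffine.Point :=
  AddSubgroup.closure {P | ∀ x y h, P = Affine.Point.some x y h →
    1 < Valued.v x ∨ Valued.v (W.a₁ * y - (3 * x ^ 2 + 2 * W.a₂ * x + W.a₄)) = 1 ∨
      Valued.v (2 * y + W.a₁ * x + W.a₃) = 1}

/-- The Tamagawa number `c_v = [E(K_v) : E⁰(K_v)]` of a minimal equation. -/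
noncomputable def c (W : WeierstrassCurve ℤ) (v : HeightOneSpectrum (𝓞 K)) : ℕ :=
  (nonsing W v).index

end

section

variable (K : Type) [Field K] [NumberField K]

/-- The product of the Tamagawa numbers. -/
noncomputable def Tam (W : WeierstrassCurve ℤ) : ℕ := ∏ᶠ v : HeightOneSpectrum (𝓞 K), c W v

/-- The 2-primary part of the Tate-Shafarevich group over `K`. -/
noncomputable abbrev Sha2 (W : WeierstrassCurve ℤ) : AddSubgroup (Sha (base W K)) :=
  AddCommGroup.primaryComponent (Sha (base W K)) 2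

/-- The torsion points over `K`. -/
def tors (W : WeierstrassCurve ℤ) : Set (base W K).toAffine.Point := {P | ∃ n : ℕ, 0 < n ∧ n • P = 0}

/-- The rank of the group of the points over `K`. -/
noncomputable def rank (W : WeierstrassCurve ℤ) : ℕ := Module.finrank ℤ (base W K).toAffine.Point

/-- `g` is a basis of the group of the points over `K` modulo torsion. -/
def IsBasis (W : WeierstrassCurve ℤ) {r : ℕ} (g : Fin r → (base W K).toAffine.Point) : Prop :=
  ∀ P : (base W K).toAffine.Point, ∃! n : Fin r → ℤ, P - ∑ i, n i • g i ∈ tors K W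

/-- `h` is the canonical height: `h(P) = lim 4^{-k} h_K(x(2^k P))`, where `h_K` is the logarithmic
height relative to `K`. -/
def IsHeight (W : WeierstrassCurve ℤ) (h : (base W K).toAffine.Point → ℝ) : Prop :=
  ∀ P : (base W K).toAffine.Point,
    Tendsto (fun k : ℕ => Height.logHeight ((2 ^ k : ℕ) • P).xRep / 4 ^ k) atTop (𝓝 (h P))

/-- The regulator, the determinant of `⟨g_i, g_j⟩ = (h(g_i + g_j) - h(g_i) - h(g_j)) / 2`. -/
noncomputable def reg (W : WeierstrassCurve ℤ) (h : (base W K).toAffine.Point → ℝ) {r : ℕ}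
    (g : Fin r → (base W K).toAffine.Point) : ℝ :=
  (Matrix.of fun i j : Fin r => (h (g i + g j) - h (g i) - h (g j)) / 2).det

end

/-- `4 x³ + b₂ x² + 2 b₄ x + b₆ = (2 y + a₁ x + a₃)²`, where `b₂ = a₁² + 4 a₂`,
`b₄ = 2 a₄ + a₁ a₃`, `b₆ = a₃² + 4 a₆`. -/
def cubic (W : WeierstrassCurve ℤ) {R : Type} [CommRing R] (x : R) : R :=
  4 * x ^ 3 + W.b₂ * x ^ 2 + 2 * W.b₄ * x + W.b₆

/-- `∫_{W(ℝ)} |ω|` with `ω = dx / (2 y + a₁ x + a₃)`, as an integral over `x`: two real points lie
over each `x` with `cubic x > 0`. -/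
noncomputable def realPeriod (W : WeierstrassCurve ℤ) : ℝ :=
  2 * ∫ x in {x : ℝ | 0 < cubic W x}, 1 / √(cubic W x)

/-- `2 ∫_{W(ℂ)} |ω ∧ ω̄|`, where `|ω ∧ ω̄| = du dv` in a local parameter `z = u + i v` with
`dz = ω`, as an integral over `x`: two points lie over a general `x`, and `|ω ∧ ω̄|` is the area
element of the plane of `x` divided by `|cubic x|`. -/
noncomputable def complexPeriod (W : WeierstrassCurve ℤ) : ℝ := 2 * (2 * ∫ x : ℂ, 1 / ‖cubic W x‖)

/-- The global period of an equation that is minimal at all finite places. -/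
noncomputable def Omega (K : Type) [Field K] [NumberField K] (W : WeierstrassCurve ℤ) : ℝ :=
  realPeriod W ^ nrRealPlaces K * complexPeriod W ^ nrComplexPlaces K

/-- The `L`-function of `W` over `K` is an entire function `L`, its order at `s = 1` is `n`, and `x` is
the analytic order of the Tate-Shafarevich group, that is
`L*(1) √|Δ_K| (#E(K)_tors)² / (Reg Ω Tam)`, where `L*(1)` is the leading coefficient at `1`: the value
of `#Ш` that is predicted by the conjecture.  (The three numbers in the denominator and the number of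
the torsion points are positive.) -/
def IsAnalyticSha (K : Type) [Field K] [NumberField K] (W : WeierstrassCurve ℤ) (n : ℕ) (x : ℂ) :
    Prop :=
  ∃ (L : ℂ → ℂ) (l : ℂ) (h : (base W K).toAffine.Point → ℝ) (r : ℕ)
    (g : Fin r → (base W K).toAffine.Point), Differentiable ℂ L ∧
    (∀ s : ℂ, 3 / 2 < s.re → HasProd (factor (K := K) W s) (L s)) ∧
    analyticOrderAt L 1 = n ∧ Tendsto (fun s => L s / (s - 1) ^ n) (𝓝[≠] 1) (𝓝 l) ∧
    IsHeight K W h ∧ IsBasis K W g ∧ 0 < reg K W h g ∧ 0 < Omega K W ∧ 0 < Tam K W ∧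
    0 < Nat.card (tors K W) ∧
    x = l * ((√|(discr K : ℝ)| : ℝ) : ℂ) * (Nat.card (tors K W) : ℂ) ^ 2 /
      (((reg K W h g * Omega K W * Tam K W : ℝ)) : ℂ)

/-- The 2-part of the conjecture of Birch and Swinnerton-Dyer for `W` over `K`: the `L`-function is
entire, its order at `s = 1` is the rank, the 2-primary part of the Tate-Shafarevich group is finite,
and the analytic order of the Tate-Shafarevich group is a rational number with the same 2-adic
valuation as the order of that 2-primary part. -/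
def TwoPart (K : Type) [Field K] [NumberField K] (W : WeierstrassCurve ℤ) : Prop :=
  ∃ x : ℚ, x ≠ 0 ∧ IsAnalyticSha K W (rank K W) x ∧ Finite (Sha2 K W) ∧
    padicValRat 2 x = padicValNat 2 (Nat.card (Sha2 K W))

/-! ### The class of the twists -/

/-- primes which split completely in `ℚ(i, √2, √-7)` -/
def Split (p : ℕ) : Prop := p.Prime ∧ p % 8 = 1 ∧ (p % 7 = 1 ∨ p % 7 = 2 ∨ p % 7 = 4)

/-- primes inert in `ℚ(√2)` and in `ℚ(√-7)` -/
def Inert (q : ℕ) : Prop :=
  q.Prime ∧ (q % 8 = 3 ∨ q % 8 = 5) ∧ (q % 7 = 3 ∨ q % 7 = 5 ∨ q % 7 = 6)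

/-- the class of discriminants; the condition modulo `9` means that the prime is inert in all the
layers of the cyclotomic `ℤ₃`-extension of `ℚ` -/
def Adm (D : ℤ) : Prop := Squarefree D ∧ D % 4 = 1 ∧ (D % 7 = 1 ∨ D % 7 = 2 ∨ D % 7 = 4) ∧
  ∀ p : ℕ, p.Prime → (p : ℤ) ∣ D →
    (Split p ∨ Inert p) ∧ (p % 9 = 2 ∨ p % 9 = 4 ∨ p % 9 = 5 ∨ p % 9 = 7)

/-- the prime factors `≡ 1 mod 8` of `D` -/
def S (D : ℤ) : Finset ℕ := D.natAbs.primeFactors.filter fun p => p % 8 = 1

/-- the matrix over `𝔽₂` with rows and columns indexed by `S D`: off the diagonal the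
entry at `(p, p')` is `1` if `p'` is not a square modulo `p` and `0` otherwise; on the diagonal it
is the number of the prime factors of `D` different from `p` which are not squares modulo `p`, plus
`1` if the number of the points of `X_0(14)` modulo `p` is not divisible by `8` -/
noncomputable def R (D : ℤ) : Matrix (S D) (S D) (ZMod 2) := Matrix.of fun i j =>
  if i = j then
    (((D.natAbs.primeFactors.filter fun r : ℕ => r ≠ (i : ℕ) ∧
      ¬ IsSquare (r : ZMod (i : ℕ))).card : ZMod 2) +
        if 8 ∣ pts (twist 1) (ZMod (i : ℕ)) + 1 then 0 else 1)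
  else if IsSquare (((j : ℕ)) : ZMod (i : ℕ)) then 0 else 1

/-- The 2-part of the conjecture of Birch and Swinnerton-Dyer holds for `E_D` over `K`, the rank of
`E_D(K)` is zero and `Ш(E_D/K)[2^∞] = 0`. -/
def Good (K : Type) [Field K] [NumberField K] (D : ℤ) : Prop :=
  TwoPart K (twist D) ∧ rank K (twist D) = 0 ∧ Nat.card (Sha2 K (twist D)) = 1

/-- The rank of `E_D(K)` is zero and `Ш(E_D/K)[2] = 0`. -/
def Small (K : Type) [Field K] [NumberField K] (D : ℤ) : Prop :=
  rank K (twist D) = 0 ∧ ∀ x : Sha (base (twist D) K), 2 • x = 0 → x = 0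

/-- `Good K D` at every layer `K` of the cyclotomic `ℤ₃`-extension of `ℚ` (`K` is a subfield of odd
degree of a `3 ^ (n + 1)`-th cyclotomic field). -/
def AllLayers (D : ℤ) : Prop := ∀ (n : ℕ) (M : Type) [Field M] [NumberField M]
  [IsCyclotomicExtension {3 ^ (n + 1)} ℚ M] (K : IntermediateField ℚ M),
  Odd (Module.finrank ℚ K) → Good K D

/-- the number of the integers `D` with `|D| ≤ X` and `Q D` -/
noncomputable def count (Q : ℤ → Prop) (X : ℕ) : ℕ := Nat.card {D : ℤ // |D| ≤ X ∧ Q D}

/-- `c = ∏_{i ≥ 0} (1 - 2^{-(2 i + 1)})` -/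
noncomputable def cc : ℝ := ∏' i : ℕ, (1 - (1 / 2 : ℝ) ^ (2 * i + 1))

/-- the `D` with `Q D` have the proportion `c` among the `D` of the class of the sign of `s`, ordered
by absolute value -/
def Proportion (Q : ℤ → Prop) (s : ℤ) (c : ℝ) : Prop :=
  Tendsto (fun X : ℕ => (count (fun D => Adm D ∧ 0 < s * D ∧ Q D) X : ℝ) /
    (count (fun D => Adm D ∧ 0 < s * D) X : ℝ)) atTop (𝓝 c)

/-- the number of the `D` of the class of the sign of `s` with `|D| ≤ X` is at least a positive
constant times `X (log X)^(-3/4)` -/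
def Many (s : ℤ) : Prop := ∃ (a : ℝ) (X₀ : ℕ), 0 < a ∧ ∀ X : ℕ, X₀ ≤ X →
  a * X * (Real.log X) ^ (-(3 / 4) : ℝ) ≤ (count (fun D => Adm D ∧ 0 < s * D) X : ℝ)

/-- `D'` is the squarefree part of the product of the elements `D` and `b` of the class -/
def IsProd (D b D' : ℤ) : Prop := Adm D' ∧ ∃ k : ℤ, D * b = D' * k ^ 2

/-- At every layer `K` of the cyclotomic `ℤ₃`-extension of `ℚ` the rank of `E_D(K)` is positive or
`Ш(E_D/K)[2] ≠ 0`. -/
def NoLayer (D : ℤ) : Prop := ∀ (n : ℕ) (M : Type) [Field M] [NumberField M]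
  [IsCyclotomicExtension {3 ^ (n + 1)} ℚ M] (K : IntermediateField ℚ M),
  Odd (Module.finrank ℚ K) → ¬ Small K D

/-- **Main theorem.**
(1) The class is closed under multiplication up to squares: for `D` and `b` in the class there is exactly
one `D'` in the class such that `D b` is the product of `D'` and a square.
(2) For each `D` of the class, either `AllLayers D` holds: the 2-part of the conjecture of Birch and
Swinnerton-Dyer holds for `E_D` over `K`, with rank zero and `Ш(E_D/K)[2^∞] = 0`, at all the layers `K`;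
or `NoLayer D` holds: the rank of `E_D(K)` is positive or `Ш(E_D/K)[2] ≠ 0`, at all the layers `K`.
(3) Let `b_1, …, b_M` be different elements of the class.  For each set `T` of indices, the proportion of
the `D` such that `AllLayers` holds for the twist by `b_i D` exactly if `i ∈ T` is
`c^#T (1 - c)^(M - #T)`, among the positive `D` of the class, ordered by absolute value, and also among
the negative ones; `0.4194 < c < 0.4195`.
(4) The number of the `D` of the class of a given sign with `|D| ≤ X` is at least a positive constant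
times `X (log X)^(-3/4)`. -/
theorem result :
    (∀ D b : ℤ, Adm D → Adm b → ∃! D' : ℤ, IsProd D b D') ∧
    (∀ D : ℤ, Adm D → (AllLayers D ∨ NoLayer D) ∧ ¬ (AllLayers D ∧ NoLayer D)) ∧
    (0.4194 < cc ∧ cc < 0.4195) ∧
    ∀ s : ℤ, (s = 1 ∨ s = -1) → Many s ∧
      ∀ (M : ℕ) (b : Fin M → ℤ), (∀ i, Adm (b i)) → Function.Injective b → ∀ T : Finset (Fin M),
        Proportion (fun D => ∀ (i : Fin M) (D' : ℤ), IsProd D (b i) D' → (AllLayers D' ↔ i ∈ T)) s
          (cc ^ T.card * (1 - cc) ^ (M - T.card)) := by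
  have hA : ∀ D : ℤ, Adm D ↔ (Pool.Agent.Y687.MQ.AdmD D ∧ Pool.Agent.Y682.YQ.H9 D) := by
    intro D
    constructor
    · rintro ⟨h1, h2, h3, h4⟩
      refine ⟨⟨h1, h2, h3, fun p hp hd => ⟨?_, (h4 p hp hd).1⟩⟩, fun p hp hd => (h4 p hp hd).2⟩
      rintro rfl
      have := (h4 3 hp hd).2
      omega
    · rintro ⟨⟨h1, h2, h3, h4⟩, h5⟩
      exact ⟨h1, h2, h3, fun p hp hd => ⟨(h4 p hp hd).2, h5 p hp hd⟩⟩
  have hR : ∀ D : ℤ, Adm D → R D = Pool.Agent.Y687.MQ.matD D := by
    intro D hD
    have hS := (Pool.Agent.Y687.MQ.of_admD ((hA D).1 hD).1).1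
    unfold R Pool.Agent.Y687.MQ.matD
    ext i j
    simp only [Matrix.of_apply]
    have hi := hS i.1 i.2
    have h8 := hi.2.1
    have h7 := hi.2.2
    have e : pts (twist 1) (ZMod (i : ℕ)) + 1 = Pool.Agent.Y687.NN 1 (i : ℕ) := by
      have h1 := Pool.Agent.Z705.cnt_affCountZ (D := 1) hi.1 (by omega) (by omega) (by norm_num) (by
        intro h
        rw [Int.natAbs_one, Nat.dvd_one] at h
        exact hi.1.one_lt.ne' h)
      unfold Pool.Agent.Y687.NN
      rw [Nat.cast_one, h1]
      rfl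
    rw [e]
    rfl
  have hc2 := Pool.Agent.Y948.CQ.t_C2.2.2.2
  have key : ∀ D : ℤ, Adm D → ∀ (n : ℕ) (M : Type) [Field M] [NumberField M]
      [IsCyclotomicExtension {3 ^ (n + 1)} ℚ M] (K : IntermediateField ℚ M),
      Odd (Module.finrank ℚ K) →
      (Small K D ↔ (R D).det ≠ 0) ∧ ((R D).det ≠ 0 → Good K D) := by
    intro D hD n M _ _ _ K hodd
    rw [hR D hD]
    exact (Pool.Agent.Y682.YQ.layer ((hA D).1 hD).1 ((hA D).1 hD).2 n M K hodd).2
  have h21 : ∀ (A : Type) [AddCommGroup A] (x : A), 2 • x = 0 → 2 ^ 1 • x = 0 := by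
    intro A _ x hx
    rw [pow_one]
    exact hx
  have hodd0 : Odd (Module.finrank ℚ (⊥ : IntermediateField ℚ (CyclotomicField (3 ^ (0 + 1)) ℚ))) := by
    rw [IntermediateField.finrank_bot]
    exact odd_one
  have hz : NeZero (3 ^ (0 + 1)) := ⟨by norm_num⟩
  have hcyc : IsCyclotomicExtension {3 ^ (0 + 1)} ℚ (CyclotomicField (3 ^ (0 + 1)) ℚ) :=
    CyclotomicField.isCyclotomicExtension (3 ^ (0 + 1)) ℚ
  have hall : ∀ D : ℤ, Adm D → (AllLayers D ↔ (R D).det ≠ 0) := by
    intro D hD
    constructor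
    · intro h
      obtain ⟨-, h2, h3⟩ := h 0 (CyclotomicField (3 ^ (0 + 1)) ℚ) ⊥ hodd0
      obtain ⟨k2, -⟩ := key D hD 0 (CyclotomicField (3 ^ (0 + 1)) ℚ) ⊥ hodd0
      refine k2.1 ⟨h2, fun x hx => ?_⟩
      have hx' : x ∈ Sha2 (⊥ : IntermediateField ℚ (CyclotomicField (3 ^ (0 + 1)) ℚ)) (twist D) :=
        ⟨1, h21 _ x hx⟩
      have h4 := (Nat.card_eq_one_iff_unique.1 h3).1
      exact congrArg Subtype.val (Subsingleton.elim (⟨x, hx'⟩ : Sha2 (⊥ : IntermediateField ℚ (CyclotomicField (3 ^ (0 + 1)) ℚ)) (twist D)) 0)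
    · intro h n M _ _ _ K hodd
      exact (key D hD n M K hodd).2 h
  have hno : ∀ D : ℤ, Adm D → (NoLayer D ↔ ¬ (R D).det ≠ 0) := by
    intro D hD
    constructor
    · intro h hdet
      exact h 0 (CyclotomicField (3 ^ (0 + 1)) ℚ) ⊥ hodd0
        ((key D hD 0 (CyclotomicField (3 ^ (0 + 1)) ℚ) ⊥ hodd0).1.2 hdet)
    · intro h n M _ _ _ K hodd hs
      exact h ((key D hD n M K hodd).1.1 hs)
  have hprod : ∀ D b : ℤ, Adm D → Adm b → ∃! D' : ℤ, IsProd D b D' := by
    intro D b hD hb
    obtain ⟨C, k, h1, h2, h3, h4, -⟩ := Pool.Agent.Y682.YS.mulD ((hA D).1 hD).1 ((hA D).1 hD).2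
      ((hA b).1 hb).1 ((hA b).1 hb).2
    refine ⟨C, ⟨(hA C).2 ⟨h1, h2⟩, k, h4⟩, ?_⟩
    rintro C' ⟨g1, k', g2⟩
    have g3 : k' ≠ 0 := by
      rintro rfl
      apply mul_ne_zero hD.1.ne_zero hb.1.ne_zero
      rw [g2]
      ring
    refine Pool.Agent.V11291.JH.adm_inj ((hA C').1 g1).1 h1 ?_
    rw [Pool.Agent.V11291.JH.pf_sqf hD.1 hb.1 g1.1 g3 g2,
      Pool.Agent.V11291.JH.pf_sqf hD.1 hb.1 h1.1 h3 h4]
  refine ⟨hprod, fun D hD => ?_, hc2, fun s hs => ⟨?_, fun M b hb hinj T => ?_⟩⟩
  · rw [hall D hD, hno D hD]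
    tauto
  · obtain ⟨a, X₀, ha, h⟩ := Pool.Agent.Y682.YQ.low9 hs
    refine ⟨a, X₀, ha, fun X hX => ?_⟩
    have e2 : Pool.Agent.Y682.YQ.CA.count (fun D => Pool.Agent.Y687.MQ.AdmD D ∧ 0 < s * D ∧
        Pool.Agent.Y682.YQ.H9 D) X = count (fun D => Adm D ∧ 0 < s * D) X := by
      unfold Pool.Agent.Y682.YQ.CA.count count
      refine Nat.card_congr (Equiv.subtypeEquivRight fun D => ?_)
      show (|D| ≤ (X : ℤ) ∧ (Pool.Agent.Y687.MQ.AdmD D ∧ 0 < s * D ∧ Pool.Agent.Y682.YQ.H9 D)) ↔
        (|D| ≤ (X : ℤ) ∧ (Adm D ∧ 0 < s * D))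
      rw [hA D]
      tauto
    rw [← e2]
    exact h X hX
  · have h := Pool.Agent.V11291.JH.indep9 hs b (fun i => ((hA _).1 (hb i)).1)
      (fun i => ((hA _).1 (hb i)).2) hinj Tᶜ T disjoint_compl_right
    have hcard : (Tᶜ).card = M - T.card := by
      rw [Finset.card_compl, Fintype.card_fin]
    rw [hcard] at h
    refine h.congr fun X => ?_
    have hTw : ∀ D : ℤ, Adm D → ∀ i, (Pool.Agent.V11291.JH.Tw (b i) D ↔
        ∀ D' : ℤ, IsProd D (b i) D' → AllLayers D') := by
      intro D hD i
      constructor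
      · rintro h1 D' ⟨h2, k, h3⟩
        rw [hall D' h2, hR D' h2]
        exact h1 D' k ((hA D').1 h2).1 h3
      · intro h1 D' k h2 h3
        have h4 : Pool.Agent.Y682.YQ.H9 D' := by
          intro p hp hpd
          have h5 : (p : ℤ) ∣ D * b i := by
            rw [h3]
            exact Dvd.dvd.mul_right hpd _
          rcases (Nat.prime_iff_prime_int.1 hp).dvd_or_dvd h5 with h6 | h6
          · exact ((hA D).1 hD).2 p hp h6
          · exact ((hA _).1 (hb i)).2 p hp h6
        have h5 : Adm D' := (hA D').2 ⟨h2, h4⟩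
        have h6 := h1 D' ⟨h5, k, h3⟩
        rw [hall D' h5, hR D' h5] at h6
        exact h6
    have e1 : Pool.Agent.Y682.YQ.CA.count (fun D => Pool.Agent.Y687.MQ.AdmD D ∧ 0 < s * D ∧
        (Pool.Agent.Y682.YQ.H9 D ∧ (∀ i ∈ T, Pool.Agent.V11291.JH.Tw (b i) D) ∧
          ∀ i ∈ Tᶜ, ¬ Pool.Agent.V11291.JH.Tw (b i) D)) X =
        count (fun D => Adm D ∧ 0 < s * D ∧
          ∀ (i : Fin M) (D' : ℤ), IsProd D (b i) D' → (AllLayers D' ↔ i ∈ T)) X := by
      unfold Pool.Agent.Y682.YQ.CA.count count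
      refine Nat.card_congr (Equiv.subtypeEquivRight fun D => ?_)
      show (|D| ≤ (X : ℤ) ∧ (Pool.Agent.Y687.MQ.AdmD D ∧ 0 < s * D ∧
        (Pool.Agent.Y682.YQ.H9 D ∧ (∀ i ∈ T, Pool.Agent.V11291.JH.Tw (b i) D) ∧
          ∀ i ∈ Tᶜ, ¬ Pool.Agent.V11291.JH.Tw (b i) D))) ↔
        (|D| ≤ (X : ℤ) ∧ (Adm D ∧ 0 < s * D ∧
          ∀ (i : Fin M) (D' : ℤ), IsProd D (b i) D' → (AllLayers D' ↔ i ∈ T)))
      have h0 : ∀ hD : Adm D, (((∀ i ∈ T, Pool.Agent.V11291.JH.Tw (b i) D) ∧
          ∀ i ∈ Tᶜ, ¬ Pool.Agent.V11291.JH.Tw (b i) D) ↔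
          ∀ (i : Fin M) (D' : ℤ), IsProd D (b i) D' → (AllLayers D' ↔ i ∈ T)) := by
        intro hD
        constructor
        · rintro ⟨h1, h2⟩ i D' h3
          constructor
          · intro h4
            by_contra h5
            apply h2 i (Finset.mem_compl.2 h5)
            rw [hTw D hD i]
            intro D'' h6
            rw [(hprod D (b i) hD (hb i)).unique h6 h3]
            exact h4
          · intro h4
            exact (hTw D hD i).1 (h1 i h4) D' h3
        · intro h1
          refine ⟨fun i hi => (hTw D hD i).2 fun D' h2 => (h1 i D' h2).2 hi, fun i hi h2 => ?_⟩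
          obtain ⟨D', h3, -⟩ := hprod D (b i) hD (hb i)
          exact (Finset.mem_compl.1 hi) ((h1 i D' h3).1 ((hTw D hD i).1 h2 D' h3))
      constructor
      · rintro ⟨g1, g2, g3, g4, g5⟩
        have hD : Adm D := (hA D).2 ⟨g2, g4⟩
        exact ⟨g1, hD, g3, (h0 hD).1 g5⟩
      · rintro ⟨g1, g2, g3, g4⟩
        exact ⟨g1, ((hA D).1 g2).1, g3, ((hA D).1 g2).2, (h0 g2).2 g4⟩
    have e2 : Pool.Agent.Y682.YQ.CA.count (fun D => Pool.Agent.Y687.MQ.AdmD D ∧ 0 < s * D ∧
        Pool.Agent.Y682.YQ.H9 D) X = count (fun D => Adm D ∧ 0 < s * D) X := by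
      unfold Pool.Agent.Y682.YQ.CA.count count
      refine Nat.card_congr (Equiv.subtypeEquivRight fun D => ?_)
      show (|D| ≤ (X : ℤ) ∧ (Pool.Agent.Y687.MQ.AdmD D ∧ 0 < s * D ∧ Pool.Agent.Y682.YQ.H9 D)) ↔
        (|D| ≤ (X : ℤ) ∧ (Adm D ∧ 0 < s * D))
      rw [hA D]
      tauto
    rw [e1, e2]

end Pool.Agent.Results.MP_e996df_nt.TwoPartIndependence
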