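import Pool.Agent.V11207.SF.TP

/-!
# Parts (i) and (ii) of the conjecture for `p = 2` in infinite towers over an arbitrary multiquadratic
# field

`E` is the modular curve `X_0(14)`, an elliptic curve without complex multiplication.  The class `Adm`
consists of the squarefree integers, positive or negative, `1` modulo `4`, squares modulo `7`, whose prime
divisors split completely in `ℚ(i, √2, √-7)` or are inert in `ℚ(√2)` and in `ℚ(√-7)`, and are inert in the
cyclotomic `ℤ₃`-extension of `ℚ`.

Let `S` be ANY finite subset of the class, independent modulo squares, and `F₀ = ℚ(√d : d ∈ S)`.  Nothing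
is assumed about the rank, the `L`-function and the Tate-Shafarevich group of `E` over `F₀`.  We compare
`F₀` with extensions of large degree.

* For all the layers `K` of the cyclotomic `ℤ₃`-extension of `ℚ` and `F = K(√d : d ∈ S)`, the orders of
  `L(E/F₀, s)` and `L(E/F, s)` at `s = 1` are equal, the ranks of `E(F₀)` and `E(F)` are equal, and
  `Ш(E/F)[2^∞]` is finite if and only if `Ш(E/F₀)[2^∞]` is finite.  So the parts (i) and (ii) of the
  conjecture for `p = 2` hold over `F` if and only if they hold over `F₀`.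
* The same is true for `F = K(√D, √d : d ∈ S)`, for all `D` in the class such that the rank of `E_{D'}` is
  zero and `Ш(E_{D'})[2] = 0` for the squarefree parts `D'` of the `2^#S` products of `D` with elements of
  `S`.  Exactly the proportion `c^(2^#S)`, `c = 0.419...`, of the `D` in the class has this property.
* There are infinite towers `F₀ ⊂ F₁ ⊂ F₂ ⊂ …` of quadratic extensions, such that this is true for all the
  composites of the fields `F_n` with all the layers `K`.

So the parts (i) and (ii) for `p = 2` over one field decide them for infinitely many fields of unbounded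
degree.
-/

set_option autoImplicit false

open NumberField IsDedekindDomain Filter Topology

namespace Pool.Agent.Results.MP_e996df_nt.TwoPartTowers

open scoped Classical

open Pool.Agent.TH841.NF.D (Sha)

open Pool.Agent.Results.MP_787500_nt.LayersBlochKatoLaw (E base factor rank twist multiquadratic
  cyclotomic Adm Small count cc Proportion Many Independent Criterion)

/-- `S` is a subset of the class, independent modulo squares. -/
def IsBase (S : Finset ℤ) : Prop := (∀ d ∈ S, Adm d) ∧
  ∀ T ⊆ S, T.Nonempty → ¬ IsSquare (∏ d ∈ T, d)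

/-- `L(E/F, s)` is entire, and its order at `s = 1` is `n`. -/
def HasOrder (F : Type) [Field F] [NumberField F] (n : ℕ) : Prop :=
  ∃ L : ℂ → ℂ, Differentiable ℂ L ∧
    (∀ s : ℂ, 3 / 2 < s.re → HasProd (factor (K := F) E s) (L s)) ∧ analyticOrderAt L 1 = n

/-- The 2-primary part of `Ш(E/F)` is finite. -/
def FiniteSha2 (F : Type) [Field F] [NumberField F] : Prop :=
  Finite (AddCommGroup.primaryComponent (Sha (base E F)) 2)

/-- The parts (i) and (ii) of the conjecture for `E` over `F` and `p = 2`: `L(E/F, s)` is entire, its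
order at `s = 1` is the rank of `E(F)`, and `Ш(E/F)[2^∞]` is finite. -/
def TwoPart (F : Type) [Field F] [NumberField F] : Prop := HasOrder F (rank F E) ∧ FiniteSha2 F

/-- The `L`-functions of `E` over `F` and `F'` are entire and have the same order at `s = 1`, the ranks
of `E(F)` and `E(F')` are equal, `Ш(E/F')[2^∞]` is finite if and only if `Ш(E/F)[2^∞]` is finite, and so
the parts (i) and (ii) of the conjecture for `p = 2` over `F` and over `F'` are equivalent. -/
def Same (F F' : Type) [Field F] [NumberField F] [Field F'] [NumberField F'] : Prop :=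
  (∃ n : ℕ, HasOrder F n ∧ HasOrder F' n) ∧ rank F' E = rank F E ∧
    (FiniteSha2 F' ↔ FiniteSha2 F) ∧ (TwoPart F' ↔ TwoPart F)

/-- For all the layers `K` of the cyclotomic `ℤ₃`-extension of `ℚ` (`K` is a subfield of odd degree of a
`3 ^ (m + 1)`-th cyclotomic field), the field `F = K(√d : d ∈ S')` has the degree `r [K : ℚ]` over
`F₀ = ℚ(√d : d ∈ S)`, and `Same F₀ F`. -/
def SameLayers (S S' : Finset ℤ) (r : ℕ) : Prop :=
  ∀ (m : ℕ) (K F₀ F : IntermediateField ℚ ℂ) [NumberField K] [NumberField F₀] [NumberField F],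
    K ≤ cyclotomic (3 ^ (m + 1)) → Odd (Module.finrank ℚ K) → F₀ = multiquadratic S →
    F = multiquadratic S' ⊔ K →
    Module.finrank ℚ F = r * Module.finrank ℚ K * Module.finrank ℚ F₀ ∧ Same F₀ F

/-- `Ш[2^∞]` is finite over `F₀ = ℚ(√d : d ∈ S)` if and only if it is finite for the `2^#S` twists
`y² = x³ + 13 t x² + 128 t² x` of `E` over `ℚ`, `t` a product of elements of `S`. -/
def FromTwists (S : Finset ℤ) : Prop :=
  ∀ (F₀ : IntermediateField ℚ ℂ) [NumberField F₀], F₀ = multiquadratic S →
    (FiniteSha2 F₀ ↔ ∀ T ⊆ S, Finite (AddCommGroup.primaryComponent (Pool.Agent.TH841.SH.D.Sha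
      (⟨0, ((13 * ∏ d ∈ T, d : ℤ) : ℚ), 0, ((128 * (∏ d ∈ T, d) ^ 2 : ℤ) : ℚ), 0⟩ :
        WeierstrassCurve ℚ)) 2))

/-! ### Proofs -/

lemma adm_cl (D : ℤ) : Adm D ↔ Pool.Agent.V11291.RG.Cl D := Pool.Agent.V11207.SF.SE.cl_iff D

lemma base_of {S : Finset ℤ} (h : IsBase S) : Pool.Agent.V11207.SF.SE.IsBase S := h

lemma e_one : E = Pool.Agent.Y700.WM 1 := rfl

lemma fin_iff (F : Type) [Field F] [NumberField F] : FiniteSha2 F ↔
    Finite (AddCommGroup.primaryComponent
      (Sha (Pool.Agent.Y682.XF.base (Pool.Agent.Y700.WM 1) F)) 2) := by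
  unfold FiniteSha2
  rw [e_one]

lemma same_of {F F' : Type} [Field F] [NumberField F] [Field F'] [NumberField F']
    (h : Pool.Agent.V11207.SF.SE.Same F F') (h' : FiniteSha2 F' ↔ FiniteSha2 F) : Same F F' := by
  obtain ⟨h1, h2, h3⟩ := h
  refine ⟨h1, h2, h', ?_⟩
  constructor
  · rintro ⟨g1, g2⟩
    exact ⟨h3.2 g1, h'.1 g2⟩
  · rintro ⟨g1, g2⟩
    exact ⟨h3.1 g1, h'.2 g2⟩

lemma layers_base {S : Finset ℤ} (hS : IsBase S) : SameLayers S S 1 := by
  intro m K F₀ F _ _ _ hK hodd hF₀ hF
  have hc := Pool.Agent.V11207.SF.SE.cl_of (base_of hS)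
  obtain ⟨h1, h2, h3, h4⟩ := Pool.Agent.V11207.SF.base_fin hc hS.2 m K hK hodd F₀ F hF₀ hF
  refine ⟨?_, same_of (Pool.Agent.V11207.SF.base_ord hc m K hK hodd F₀ F hF₀ hF) ?_⟩
  · rw [h1, h2]
    ring
  · rw [fin_iff, fin_iff, h3, h4]

/-- from `F₀` to `F'` in two steps -/
lemma layers_trans {S S' : Finset ℤ} (hS : IsBase S) {r : ℕ}
    (h : ∀ (m : ℕ) (K F F' : IntermediateField ℚ ℂ) [NumberField K] [NumberField F]
      [NumberField F'], K ≤ cyclotomic (3 ^ (m + 1)) → Odd (Module.finrank ℚ K) →
      F = multiquadratic S ⊔ K → F' = multiquadratic S' ⊔ K →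
      Module.finrank ℚ F' = r * Module.finrank ℚ F ∧ Pool.Agent.V11207.SF.SE.Same F F' ∧
        (FiniteSha2 F' ↔ FiniteSha2 F)) : SameLayers S S' r := by
  intro m K F₀ F' _ _ _ hK hodd hF₀ hF'
  have hN : NumberField (multiquadratic S ⊔ K : IntermediateField ℚ ℂ) := by
    have h1 : NumberField (multiquadratic S) := by
      rw [← hF₀]
      infer_instance
    exact Pool.Agent.V11207.SF.nf_sup _ _
  obtain ⟨h1, h2⟩ := layers_base hS m K F₀ (multiquadratic S ⊔ K) hK hodd hF₀ rfl
  obtain ⟨h3, h4, h5⟩ := h m K (multiquadratic S ⊔ K) F' hK hodd rfl hF'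
  refine ⟨?_, same_of (Pool.Agent.V11207.SF.same_trans ⟨h2.1, h2.2.1, ?_⟩ h4)
    (h5.trans h2.2.2.1)⟩
  · rw [h3, h1]
    ring
  · exact (Pool.Agent.V11207.SF.base_ord (Pool.Agent.V11207.SF.SE.cl_of (base_of hS)) m K hK hodd F₀
      (multiquadratic S ⊔ K) hF₀ rfl).2.2

lemma layers_step {S : Finset ℤ} (hS : IsBase S) {D : ℤ} (hD : Adm D) (hind : Independent S D)
    (hc : Criterion S D) : SameLayers S (insert D S) 2 := by
  refine layers_trans hS fun m K F F' _ _ _ hK hodd hF hF' => ?_
  obtain ⟨h1, h2, -⟩ := Pool.Agent.V11207.SF.SE.stable_of (base_of hS) hD hind hc m K F F' hK hodd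
    hF hF'
  refine ⟨h1, h2, ?_⟩
  rw [fin_iff, fin_iff]
  refine Pool.Agent.V11207.SF.step_fin (Pool.Agent.V11207.SF.SE.cl_of (base_of hS))
    Pool.Agent.V11207.SF.cl_one ((adm_cl D).1 hD) (fun T hT D' k hA he => ?_) m K hK hodd F F' hF hF'
  rw [one_mul] at he
  exact (Pool.Agent.V11207.SF.SE.crit_ex hS.1 hD).1 hc T hT D' k hA he

/-- **Main theorem.**  `S` is a finite subset of the class, independent modulo squares, and
`F₀ = ℚ(√d : d ∈ S)`.
(1) For all the layers `K` of the cyclotomic `ℤ₃`-extension of `ℚ` and `F = K(√d : d ∈ S)`, of degree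
`[K : ℚ]` over `F₀`: the `L`-functions of `E` over `F₀` and `F` are entire and have the same order at
`s = 1`, the ranks of `E(F₀)` and `E(F)` are equal, `Ш(E/F)[2^∞]` is finite if and only if
`Ш(E/F₀)[2^∞]` is finite, and so the parts (i) and (ii) of the conjecture for `p = 2` hold over `F` if and
only if they hold over `F₀`.  Moreover, `Ш(E/F₀)[2^∞]` is finite if and only if this is so for the `2^#S`
twists of `E` over `ℚ` by the products of elements of `S`.
(2) If `D` is in the class and independent of `S`, and for the squarefree parts `D'` of the products of `D`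
and the elements of a subset of `S` and for all the layers the rank of `E_{D'}` is zero and
`Ш(E_{D'})[2] = 0` (`Criterion S D`), then the same is true for the fields `F = K(√D, √d : d ∈ S)`, of
degree `2 [K : ℚ]` over `F₀`.  The proportion of these `D` is exactly `c^(2^#S)`, among the positive `D` of
the class, ordered by absolute value, and also among the negative ones; `0.4194 < c < 0.4195`.  The
number of the `D` of the class of a given sign with `|D| ≤ X` is at least a positive constant times
`X (log X)^(-3/4)`.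
(3) For every sequence of signs there are different numbers `d_0, d_1, …` with these signs, not in `S`,
such that for all `n` the same is true for the fields `F = K(√d : d ∈ S ∪ {d_0, …, d_{n-1}})`, of degree
`2^n [K : ℚ]` over `F₀`. -/
theorem result :
    (∀ S : Finset ℤ, IsBase S → SameLayers S S 1 ∧ FromTwists S) ∧
    (∀ S : Finset ℤ, IsBase S → ∀ D : ℤ, Adm D → Independent S D → Criterion S D →
      SameLayers S (insert D S) 2) ∧
    (∀ s : ℤ, (s = 1 ∨ s = -1) → Many s ∧ ∀ S : Finset ℤ, IsBase S →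
      Proportion (fun D => Independent S D ∧ Criterion S D) s (cc ^ (2 ^ S.card))) ∧
    (0.4194 < cc ∧ cc < 0.4195) ∧
    ∀ S : Finset ℤ, IsBase S → ∀ σ : ℕ → ℤ, (∀ i, σ i = 1 ∨ σ i = -1) →
      ∃ d : ℕ → ℤ, (∀ i, 0 < σ i * d i) ∧ Function.Injective d ∧ (∀ i, d i ∉ S) ∧
        ∀ n, SameLayers S (S ∪ (Finset.range n).image d) (2 ^ n) := by
  obtain ⟨-, m2, m3, -⟩ := Pool.Agent.V11207.SF.SE.main
  refine ⟨fun S hS => ⟨layers_base hS, ?_⟩, fun S hS D hD hind hc => layers_step hS hD hind hc,
    m2, m3, fun S hS σ hσ => ?_⟩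
  · intro F₀ _ hF₀
    have hbot : NumberField (⊥ : IntermediateField ℚ ℂ) :=
      { to_charZero := inferInstance, to_finiteDimensional := inferInstance }
    have hc := Pool.Agent.V11207.SF.SE.cl_of (base_of hS)
    obtain ⟨-, -, -, h4⟩ := Pool.Agent.V11207.SF.base_fin hc hS.2 0 (⊥ : IntermediateField ℚ ℂ)
      bot_le (by rw [IntermediateField.finrank_bot]; exact odd_one) F₀ F₀ hF₀
      (by rw [sup_bot_eq]; exact hF₀)
    rw [fin_iff]
    exact h4
  · have hcl := Pool.Agent.V11207.SF.SE.cl_of (base_of hS)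
    obtain ⟨d, h1, h2, h3, h4⟩ := Pool.Agent.V11291.RG.chain hcl
      (Pool.Agent.V11207.SF.SE.inde_of (base_of hS)) σ hσ
    refine ⟨d, h1, h2, h3, fun n => layers_trans hS fun m K F F' _ _ _ hK hodd hF hF' => ?_⟩
    obtain ⟨h5, h6⟩ := Pool.Agent.V11291.RG.const h3 h2 h4 n m K hK hodd F F' hF hF'
    refine ⟨?_, Pool.Agent.V11207.SF.SE.same_of h5 h6, ?_⟩
    · have hb : Pool.Agent.V11207.SF.SE.IsBase (S ∪ (Finset.range n).image d) :=
        ⟨fun x hx => (adm_cl x).2 ((h4 n).1 x hx), (h4 n).2.1⟩
      rw [Pool.Agent.V11207.SF.SE.deg_tower hb K F' hodd hF',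
        Pool.Agent.V11207.SF.SE.deg_tower (base_of hS) K F hodd hF,
        Finset.card_union_of_disjoint, Finset.card_image_of_injective _ h2, Finset.card_range,
        pow_add]
      · ring
      · rw [Finset.disjoint_left]
        intro x hx hx'
        obtain ⟨i, -, rfl⟩ := Finset.mem_image.1 hx'
        exact h3 i hx
    · rw [fin_iff, fin_iff]
      refine (Pool.Agent.V11207.SF.tower_fin (B := {1})
        (fun b hb => by rw [Finset.mem_singleton.1 hb]; exact Pool.Agent.V11207.SF.cl_one)
        (fun n => ⟨(h4 n).1, ?_⟩) m K hK hodd F hF n F' hF' 1 (Finset.mem_singleton_self 1)).2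
      intro b hb T hT D' k hA he
      rw [Finset.mem_singleton.1 hb, one_mul] at he
      exact (h4 n).2.2 T hT D' k hA he

end Pool.Agent.Results.MP_e996df_nt.TwoPartTowers
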